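import Pool.Agent.MP_c1891a_nt.H79.Spec

/-
A differential system spanned by finitely many series and their derivatives.
-/

namespace Pool.Agent.MP_c1891a_nt.H62

open Finset Polynomial Pool.Agent.MP_c1891a_nt.H79

namespace Bas

theorem smul_eq (p : ℚ[X]) (f : PowerSeries ℚ) : p • f = (p : PowerSeries ℚ) * f := by
  rw [Algebra.smul_def, PowerSeries.algebraMap_apply', Algebra.algebraMap_self,
    PowerSeries.map_id, id]

theorem coeff_D (f : PowerSeries ℚ) (n : ℕ) :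
    PowerSeries.coeff n (D f) = PowerSeries.coeff (n + 1) f * (n + 1) :=
  PowerSeries.coeff_derivative f n

theorem lcm_succ (n : ℕ) : Nat.lcmUpto (n + 1) ∣ (n + 1) * Nat.lcmUpto n := by
  refine Finset.lcm_dvd fun b hb => ?_
  rw [mem_Icc] at hb
  rcases Nat.eq_or_lt_of_le hb.2 with h | h
  · exact h ▸ dvd_mul_right _ _
  · exact (Finset.dvd_lcm (f := id) (mem_Icc.2 ⟨hb.1, by omega⟩)).mul_left _

theorem den_D {f : PowerSeries ℚ} (h : Den f) : Den (D f) := fun n => by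
  obtain ⟨m, hm⟩ := h (n + 1)
  obtain ⟨k, hk⟩ := lcm_succ n
  have hk' : ((n : ℚ) + 1) * Nat.lcmUpto n = Nat.lcmUpto (n + 1) * k := by exact_mod_cast hk
  refine ⟨k * m, ?_⟩
  rw [coeff_D]
  push_cast
  linear_combination PowerSeries.coeff (n + 1) f * hk' + (k : ℚ) * hm

theorem gro_D {f : PowerSeries ℚ} (h : Gro f) : Gro (D f) := by
  obtain ⟨C, hC⟩ := h
  refine ⟨2 * (C + 1) ^ 2, fun n => ?_⟩
  have h0 : (0 : ℚ) ≤ C := Nat.cast_nonneg C
  have h1 : ((n : ℚ) + 1) ≤ 2 ^ (n + 1) := by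
    exact_mod_cast (Nat.lt_two_pow_self (n := n + 1)).le
  have h2 : (C : ℚ) ^ (n + 1 + 1) ≤ ((C + 1) ^ 2) ^ (n + 1) := by
    rw [← pow_mul]
    exact (pow_le_pow_left₀ h0 (by linarith) _).trans
      (pow_le_pow_right₀ (by linarith) (by omega))
  rw [coeff_D, abs_mul, abs_of_nonneg (by positivity : (0 : ℚ) ≤ n + 1)]
  push_cast
  rw [mul_pow, mul_comm ((2 : ℚ) ^ (n + 1))]
  exact mul_le_mul ((hC (n + 1)).trans h2) h1 (by positivity) (by positivity)

theorem iter {f : PowerSeries ℚ} (h : Den f ∧ Gro f) (k : ℕ) :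
    Den (D^[k] f) ∧ Gro (D^[k] f) := by
  induction k with
  | zero => exact h
  | succ k ih =>
    rw [Function.iterate_succ_apply']
    exact ⟨den_D ih.1, gro_D ih.2⟩

theorem one : Den 1 ∧ Gro 1 := by
  refine ⟨fun n => ?_, 1, fun n => ?_⟩
  · rw [PowerSeries.coeff_one]
    split_ifs
    · exact ⟨Nat.lcmUpto n, by simp⟩
    · exact ⟨0, by simp⟩
  · rw [PowerSeries.coeff_one]
    split_ifs <;> simp

/-- the saturation of a submodule. -/
def sat (N : Submodule ℚ[X] (PowerSeries ℚ)) : Submodule ℚ[X] (PowerSeries ℚ) where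
  carrier := {h | ∃ τ : ℚ[X], τ ≠ 0 ∧ τ • h ∈ N}
  add_mem' := by
    rintro a b ⟨s, hs, ha⟩ ⟨t, ht, hb⟩
    refine ⟨s * t, mul_ne_zero hs ht, ?_⟩
    rw [smul_add]
    refine N.add_mem ?_ ?_
    · rw [mul_comm, mul_smul]
      exact N.smul_mem _ ha
    · rw [mul_smul]
      exact N.smul_mem _ hb
  zero_mem' := ⟨1, one_ne_zero, by simp⟩
  smul_mem' := by
    rintro c a ⟨s, hs, ha⟩
    refine ⟨s, hs, ?_⟩
    rw [smul_comm]
    exact N.smul_mem _ ha

theorem le_sat {N : Submodule ℚ[X] (PowerSeries ℚ)} {h : PowerSeries ℚ} (hh : h ∈ N) :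
    h ∈ sat N := ⟨1, one_ne_zero, by simpa using hh⟩

theorem sat_of_smul {N : Submodule ℚ[X] (PowerSeries ℚ)} {h : PowerSeries ℚ} {a : ℚ[X]}
    (ha : a ≠ 0) (hh : a • h ∈ sat N) : h ∈ sat N := by
  obtain ⟨s, hs, h1⟩ := hh
  exact ⟨s * a, mul_ne_zero hs ha, by rwa [mul_smul]⟩

theorem common {N : Submodule ℚ[X] (PowerSeries ℚ)} {κ : Type} [Fintype κ]
    (h : κ → PowerSeries ℚ) (hh : ∀ i, h i ∈ sat N) :
    ∃ T : ℚ[X], T ≠ 0 ∧ IntP T ∧ ∀ i, T • h i ∈ N := by
  classical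
  choose τ hτ hN using hh
  obtain ⟨b, hb, e⟩ := IsLocalization.integerNormalization_spec (nonZeroDivisors ℤ) (∏ i, τ i)
  refine ⟨b • ∏ i, τ i, smul_ne_zero (nonZeroDivisors.ne_zero hb) (prod_ne_zero_iff.2
    fun i _ => hτ i), fun n => ⟨_, by rw [← e, coeff_map]; rfl⟩, fun i => ?_⟩
  rw [smul_assoc, ← prod_erase_mul _ _ (mem_univ i), mul_smul]
  exact N.smul_of_tower_mem _ (N.smul_mem _ (hN i))

theorem basis {J : Type} [Finite J] (s : J → PowerSeries ℚ) :
    ∃ (r : ℕ) (e : Fin r → J),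
      (∀ ψ : Fin (r + 1) → ℚ[X], ∑ i, (ψ i : PowerSeries ℚ) *
        (Fin.cons 1 fun l => s (e l) : Fin (r + 1) → PowerSeries ℚ) i = 0 → ∀ i, ψ i = 0) ∧
      ∀ j, s j ∈ sat (Submodule.span ℚ[X]
        (Set.range (Fin.cons 1 fun l => s (e l) : Fin (r + 1) → PowerSeries ℚ))) := by
  set q := (Submodule.span ℚ[X] {(1 : PowerSeries ℚ)}).mkQ with hq
  obtain ⟨I, hI, hmax⟩ := exists_maximal_linearIndepOn ℚ[X] fun j => q (s j)
  let e : Fin (Nat.card I) ≃ I := (Finite.equivFin I).symm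
  have hq1 : q 1 = 0 := (Submodule.Quotient.mk_eq_zero _).2 (Submodule.mem_span_singleton_self _)
  refine ⟨Nat.card I, fun l => (e l).1, fun ψ hψ => ?_, fun j => ?_⟩
  · have hli : LinearIndependent ℚ[X] fun l => q (s (e l).1) := hI.comp e e.injective
    rw [Fin.sum_univ_succ] at hψ
    simp only [Fin.cons_zero, Fin.cons_succ, ← smul_eq] at hψ
    have h1 := congrArg q hψ
    rw [map_add, map_sum, map_smul, hq1, smul_zero, zero_add, map_zero] at h1
    simp only [map_smul] at h1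
    have h2 := Fintype.linearIndependent_iff.1 hli (fun l => ψ l.succ) h1
    simp only [h2, zero_smul, sum_const_zero, add_zero] at hψ
    rw [smul_eq, mul_one, Polynomial.coe_eq_zero_iff] at hψ
    exact Fin.cases hψ h2
  · set N := Submodule.span ℚ[X] (Set.range
      (Fin.cons 1 fun l => s (e l).1 : Fin (Nat.card I + 1) → PowerSeries ℚ)) with hN
    have hI' : ∀ i ∈ I, s i ∈ N := fun i hi =>
      Submodule.subset_span ⟨(e.symm ⟨i, hi⟩).succ, by rw [Fin.cons_succ, e.apply_symm_apply]⟩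
    by_cases hj : j ∈ I
    · exact le_sat (hI' j hj)
    · obtain ⟨a, ha, h1⟩ := hmax j hj
      have h2 : Submodule.span ℚ[X] ((fun j => q (s j)) '' I) ≤ N.map q := by
        rw [Submodule.span_le]
        rintro _ ⟨i, hi, rfl⟩
        exact ⟨s i, hI' i hi, rfl⟩
      obtain ⟨n, hn, h3⟩ := h2 h1
      rw [← map_smul, ← sub_eq_zero, ← map_sub, hq, Submodule.mkQ_apply,
        Submodule.Quotient.mk_eq_zero] at h3
      have h4 : Submodule.span ℚ[X] {(1 : PowerSeries ℚ)} ≤ N := by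
        rw [Submodule.span_le, Set.singleton_subset_iff]
        exact Submodule.subset_span ⟨0, rfl⟩
      refine ⟨a, ha, ?_⟩
      have h5 := N.sub_mem hn (h4 h3)
      rwa [sub_sub_cancel] at h5

end Bas

theorem bas : SBas := by
  intro ι _ g hg
  choose ρ a π ha hode using fun i => (hg i).2.2
  obtain ⟨r, e, hind, hs⟩ := Bas.basis fun j : Σ i, Fin (ρ i) => D^[j.2] (g j.1)
  set f : Fin (r + 1) → PowerSeries ℚ := Fin.cons 1 fun l => D^[(e l).2] (g (e l).1) with hf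
  set N := Submodule.span ℚ[X] (Set.range f) with hN
  have h1 : (1 : PowerSeries ℚ) ∈ N := Submodule.subset_span ⟨0, rfl⟩
  have hB : ∀ i k, k ≤ ρ i → D^[k] (g i) ∈ Bas.sat N := fun i k hk => by
    rcases Nat.eq_or_lt_of_le hk with rfl | h
    · refine Bas.sat_of_smul (ha i) ?_
      have h2 := hode i
      rw [sum_range_succ, ← eq_sub_iff_add_eq', ← mul_one (π i : PowerSeries ℚ)] at h2
      simp only [← Bas.smul_eq] at h2
      rw [h2]
      refine Submodule.sub_mem _ (Submodule.smul_mem _ _ (Bas.le_sat h1))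
        (Submodule.sum_mem _ fun l hl => Submodule.smul_mem _ _ ?_)
      exact hs ⟨i, l, mem_range.1 hl⟩
    · exact hs ⟨i, k, h⟩
  have hD : ∀ j, D (f j) ∈ Bas.sat N := by
    refine Fin.cases ?_ fun l => ?_
    · have : D (f 0) = 0 := Derivation.map_one_eq_zero _
      rw [this]
      exact Submodule.zero_mem _
    · have := hB (e l).1 ((e l).2 + 1) (e l).2.2
      rwa [Function.iterate_succ_apply'] at this
  obtain ⟨T, hT, iT, hT'⟩ := Bas.common _ hD
  obtain ⟨T₀, hT₀, iT₀, hT₀'⟩ := Bas.common g fun i => hB i 0 (Nat.zero_le _)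
  choose A hA using fun i => (Submodule.mem_span_range_iff_exists_fun ℚ[X]).1 (hT' i)
  choose b hb using fun i => (Submodule.mem_span_range_iff_exists_fun ℚ[X]).1 (hT₀' i)
  simp only [Bas.smul_eq] at hA hb
  refine ⟨r, f, T, T₀, A, b, ⟨rfl, hind, fun i => (hA i).symm⟩, hT, hT₀, iT, iT₀, ?_,
    fun i => (hb i).symm⟩
  exact Fin.cases Bas.one fun l => Bas.iter ⟨(hg _).1, (hg _).2.1⟩ _

end Pool.Agent.MP_c1891a_nt.H62
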