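import Pool.Agent.MP_c1891a_nt.H43.Spec

/-
Counting the points with denominator `N` very near the curve.
-/

namespace Pool.Agent.MP_c1891a_nt.H43

open Finset Polynomial Module Filter Topology

theorem piece_E_ne (t : ℝ) : E t ≠ 0 := Complex.exp_ne_zero _

theorem piece_E_norm (t : ℝ) : ‖E t‖ = 1 := by
  unfold E
  have : (2 * Real.pi * Complex.I * t : ℂ) = ((2 * Real.pi * t : ℝ) : ℂ) * Complex.I := by
    push_cast; ring
  rw [this, Complex.norm_exp_ofReal_mul_I]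

theorem piece_E_an (t : ℝ) : AnalyticAt ℝ E t := by
  have h1 : AnalyticAt ℝ (fun s : ℝ => (2 * Real.pi * Complex.I * s : ℂ)) t :=
    analyticAt_const.mul (Complex.ofRealCLM.analyticAt t)
  have h2 : AnalyticAt ℝ Complex.exp (2 * Real.pi * Complex.I * t : ℂ) :=
    (analyticAt_cexp (z := (2 * Real.pi * Complex.I * t : ℂ))).restrictScalars
  exact AnalyticAt.comp (g := Complex.exp) (f := fun s : ℝ => (2 * Real.pi * Complex.I * s : ℂ))
    h2 h1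

theorem piece_psi_an (P : LP) (γ : ℝ → ℝ) (v : ℝ) (h : AnalyticAt ℝ γ v) :
    AnalyticAt ℝ (fun u => ev P (E (γ u)) (E u)) v := by
  unfold ev
  refine Finset.analyticAt_fun_sum _ fun μ _ => ?_
  have h1 : AnalyticAt ℝ (fun u => E (γ u)) v := AnalyticAt.comp (g := E) (piece_E_an _) h
  exact (analyticAt_const.mul (h1.zpow (piece_E_ne _))).mul ((piece_E_an v).zpow (piece_E_ne _))

theorem piece_cont (P : LP) : Continuous fun z : ℝ × ℝ => ev P (E z.1) (E z.2) := by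
  have hE : Continuous E := continuous_iff_continuousAt.2 fun t => (piece_E_an t).continuousAt
  unfold ev
  refine continuous_finsetSum _ fun μ _ => ?_
  exact (continuous_const.mul ((hE.comp continuous_fst).zpow₀ _ fun z => Or.inl (piece_E_ne _))).mul
    ((hE.comp continuous_snd).zpow₀ _ fun z => Or.inl (piece_E_ne _))

/-- the identity theorem inside a smaller interval. -/
theorem piece_id {F : Type} [NormedAddCommGroup F] [NormedSpace ℝ F] (g : ℝ → F) (c δ : ℝ)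
    (hδ : 0 < δ) (hg : AnalyticOnNhd ℝ g (Set.Icc (c - δ) (c + δ))) (v₁ v₂ : ℝ)
    (h₁ : v₁ ∈ Set.Icc (c - δ / 2) (c + δ / 2)) (h₂ : v₂ ∈ Set.Icc (c - δ / 2) (c + δ / 2))
    (h : ∀ᶠ v in 𝓝 v₁, g v = 0) : ∀ᶠ v in 𝓝 v₂, g v = 0 := by
  have hm : v₁ ∈ Set.Icc (c - δ) (c + δ) := ⟨by linarith [h₁.1], by linarith [h₁.2]⟩
  have h0 := hg.eqOn_zero_of_preconnected_of_eventuallyEq_zero isPreconnected_Icc hm h
  have hn : Set.Icc (c - δ) (c + δ) ∈ 𝓝 v₂ :=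
    Icc_mem_nhds (by linarith [h₂.1]) (by linarith [h₂.2])
  filter_upwards [hn] with v hv using h0 hv

theorem piece_pow (C : ℝ) (N : ℕ) (A : ℕ) (h1 : 1 ≤ N) (hC : C ≤ N) :
    C * ((N : ℝ) ^ (A + 1))⁻¹ ≤ ((N : ℝ) ^ A)⁻¹ := by
  have hN : (0 : ℝ) < N := by exact_mod_cast h1
  rw [pow_succ, mul_inv, mul_comm C, mul_assoc]
  have : (N : ℝ)⁻¹ * C ≤ 1 := by
    rw [inv_mul_le_iff₀ hN]; simpa using hC
  calc ((N : ℝ) ^ A)⁻¹ * ((N : ℝ)⁻¹ * C) ≤ ((N : ℝ) ^ A)⁻¹ * 1 := by gcongr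
    _ = _ := mul_one _

theorem piece_anti (N : ℕ) (A B : ℕ) (h1 : 1 ≤ N) (hAB : A ≤ B) :
    ((N : ℝ) ^ B)⁻¹ ≤ ((N : ℝ) ^ A)⁻¹ := by
  have hN : (1 : ℝ) ≤ N := by exact_mod_cast h1
  exact inv_anti₀ (by positivity) (pow_le_pow_right₀ hN hAB)

/-- the case of an isolated zero set. -/
theorem piece_iso (h2 : SZE) (γ g : ℝ → ℝ) (a b C : ℝ) (hg : AnalyticOnNhd ℝ g (Set.Icc a b))
    (hne : ∀ v₁ ∈ Set.Icc a b, ¬ ∀ᶠ v in 𝓝 v₁, g v = 0) :
    ∃ K A N₀ : ℕ, ∀ N : ℕ, N₀ ≤ N → ∀ S : Finset (ℤ × ℤ),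
      (∀ z ∈ S, (z.2 / N : ℝ) ∈ Set.Icc a b ∧
        |(z.1 / N : ℝ) - γ (z.2 / N)| ≤ C * ((N : ℝ) ^ A)⁻¹ ∧
        |g (z.2 / N)| ≤ C * ((N : ℝ) ^ A)⁻¹) → S.card ≤ K := by
  classical
  obtain ⟨K, A, N₀, hK⟩ := h2 Unit (fun _ => g) a b (fun _ => hg) (by
    intro v₁ hv₁ w hw
    funext i
    by_contra hw0
    refine hne v₁ hv₁ ?_
    filter_upwards [hw] with v hv
    simp only [Finset.univ_unique, Finset.sum_singleton] at hv
    exact (mul_eq_zero.1 hv).resolve_left hw0)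
  refine ⟨K, A + 3, max (max N₀ 3) ⌈C⌉₊, fun N hN S hS => ?_⟩
  have hN0 : N₀ ≤ N := le_trans (le_trans (le_max_left _ _) (le_max_left _ _)) hN
  have hN3 : 3 ≤ N := le_trans (le_trans (le_max_right _ _) (le_max_left _ _)) hN
  have hNC : C ≤ N := le_trans (Nat.le_ceil C) (by exact_mod_cast le_trans (le_max_right _ _) hN)
  have hN3' : (3 : ℝ) ≤ N := by exact_mod_cast hN3
  have hNp : (0 : ℝ) < N := by linarith
  have hb : C * ((N : ℝ) ^ (A + 3))⁻¹ ≤ ((N : ℝ) ^ (A + 2))⁻¹ :=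
    piece_pow C N (A + 2) (by omega) hNC
  have hinj : Set.InjOn (fun z : ℤ × ℤ => (z.2 / N : ℝ)) S := by
    intro z hz z' hz' h
    have e2 : z.2 = z'.2 := by
      have : (z.2 : ℝ) = z'.2 := by
        have h' : (z.2 / N : ℝ) = z'.2 / N := h
        field_simp at h'
        exact h'
      exact_mod_cast this
    have k1 := (hS z hz).2.1
    have k2 := (hS z' hz').2.1
    rw [← e2] at k2
    have k3 : ((N : ℝ) ^ (A + 2))⁻¹ ≤ ((N : ℝ) ^ 2)⁻¹ := piece_anti N 2 (A + 2) (by omega) (by omega)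
    have k4 : |(z.1 / N : ℝ) - z'.1 / N| ≤ 2 * ((N : ℝ) ^ 2)⁻¹ := by
      have := abs_sub_le (z.1 / N : ℝ) (γ (z.2 / N)) (z'.1 / N)
      rw [abs_sub_comm (γ _)] at this
      linarith
    have k5 : |(z.1 : ℝ) - z'.1| < 1 := by
      rw [← sub_div, abs_div, abs_of_pos hNp, div_le_iff₀ hNp] at k4
      have : 2 * ((N : ℝ) ^ 2)⁻¹ * N = 2 / N := by field_simp
      rw [this] at k4
      have : 2 / (N : ℝ) < 1 := by rw [div_lt_one hNp]; linarith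
      linarith
    have e1 : z.1 = z'.1 := by
      have : |z.1 - z'.1| < 1 := by exact_mod_cast k5
      have := Int.abs_lt_one_iff.1 this
      omega
    exact Prod.ext e1 e2
  rw [← Finset.card_image_of_injOn hinj]
  refine hK N (by exact_mod_cast hN0) (fun _ => 1) ⟨(), by simp⟩ (fun _ => by simp) _ ?_ ?_
  · intro v hv
    obtain ⟨z, hz, rfl⟩ := Finset.mem_image.1 hv
    refine ⟨(hS z hz).1, ?_⟩
    simp only [Finset.univ_unique, Finset.sum_singleton, one_mul]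
    exact le_trans (hS z hz).2.2 (le_trans hb (piece_anti N A (A + 2) (by omega) (by omega)))
  · intro v hv v' hv' hvv
    obtain ⟨z, hz, rfl⟩ := Finset.mem_image.1 hv
    obtain ⟨z', hz', rfl⟩ := Finset.mem_image.1 hv'
    have hz2 : z.2 ≠ z'.2 := fun h => hvv (by rw [h])
    have : (1 : ℝ) ≤ |(z.2 : ℝ) - z'.2| := by
      have : 1 ≤ |z.2 - z'.2| := Int.one_le_abs (sub_ne_zero.2 hz2)
      exact_mod_cast this
    rw [← sub_div, abs_div, abs_of_pos hNp, inv_eq_one_div]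
    gcongr

theorem sPiece (h1 : SChart) (h2 : SZE) (h3 : SBP) (h4 : SAL) : SPiece := by
  intro P θ₀ φ₀ hP h0 hs ε hε
  obtain ⟨δ, C₀, γ, hδ, hγ, hC₀⟩ := h1 P θ₀ φ₀ h0 hs
  set C := |C₀| with hCdef
  have hC : ∀ θ φ : ℝ, |θ - θ₀| ≤ δ / 2 → |φ - φ₀| ≤ δ / 2 → ∀ t : ℝ,
      ‖ev P (E θ) (E φ)‖ ≤ t → |θ - γ φ| ≤ C * t ∧ ‖ev P (E (γ φ)) (E φ)‖ ≤ C * t := by
    intro θ φ a1 a2 t ht
    obtain ⟨b1, b2⟩ := hC₀ θ φ (by linarith) (by linarith)
    have : C₀ * ‖ev P (E θ) (E φ)‖ ≤ C * t :=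
      mul_le_mul (le_abs_self _) ht (norm_nonneg _) (abs_nonneg _)
    exact ⟨b1.trans this, b2.trans this⟩
  have hsub : Set.Icc (φ₀ - δ / 2) (φ₀ + δ / 2) ⊆ Set.Icc (φ₀ - δ) (φ₀ + δ) :=
    Set.Icc_subset_Icc (by linarith) (by linarith)
  have hmem : ∀ φ : ℝ, |φ - φ₀| ≤ δ / 2 → φ ∈ Set.Icc (φ₀ - δ / 2) (φ₀ + δ / 2) := by
    intro φ h
    rw [abs_le] at h
    exact ⟨by linarith [h.1], by linarith [h.2]⟩
  have hc : φ₀ ∈ Set.Icc (φ₀ - δ / 2) (φ₀ + δ / 2) := ⟨by linarith, by linarith⟩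
  have hψ : AnalyticOnNhd ℝ (fun u => ev P (E (γ u)) (E u)) (Set.Icc (φ₀ - δ) (φ₀ + δ)) :=
    fun v hv => piece_psi_an P γ v (hγ v hv)
  by_cases hz : ∀ᶠ v in 𝓝 φ₀, ev P (E (γ v)) (E v) = 0
  · obtain ⟨C', A, N₀, hB⟩ := h3 γ _ _ (hγ.mono hsub) (fun v₁ hv₁ W hW =>
      h4 P hP γ v₁ (hγ v₁ (hsub hv₁)) (piece_id _ φ₀ δ hδ hψ φ₀ v₁ hc hv₁ hz) W hW) ε hε
    refine ⟨δ / 2, C', A + 1, max (max N₀ 1) ⌈C⌉₊, by linarith, fun N hN S hS => ?_⟩
    have hN0 : N₀ ≤ N := le_trans (le_trans (le_max_left _ _) (le_max_left _ _)) hN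
    have hN1 : 1 ≤ N := le_trans (le_trans (le_max_right _ _) (le_max_left _ _)) hN
    have hNC : C ≤ N := le_trans (Nat.le_ceil C) (by exact_mod_cast le_trans (le_max_right _ _) hN)
    refine hB N hN0 S fun z hz => ?_
    obtain ⟨a1, a2, a3⟩ := hS z hz
    exact ⟨hmem _ a2, (hC _ _ a1 a2 _ a3).1.trans (piece_pow C N A hN1 hNC)⟩
  · have key : ∃ g : ℝ → ℝ, AnalyticOnNhd ℝ g (Set.Icc (φ₀ - δ) (φ₀ + δ)) ∧
        (¬ ∀ᶠ v in 𝓝 φ₀, g v = 0) ∧ ∀ v, |g v| ≤ ‖ev P (E (γ v)) (E v)‖ := by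
      by_cases hre : ∀ᶠ v in 𝓝 φ₀, (ev P (E (γ v)) (E v)).re = 0
      · refine ⟨fun v => (ev P (E (γ v)) (E v)).im, fun v hv => ?_, fun him => hz ?_,
          fun v => Complex.abs_im_le_norm _⟩
        · exact AnalyticAt.comp (g := Complex.imCLM) (Complex.imCLM.analyticAt _) (hψ v hv)
        · filter_upwards [hre, him] with v a b using Complex.ext a b
      · refine ⟨fun v => (ev P (E (γ v)) (E v)).re, fun v hv => ?_, hre,
          fun v => Complex.abs_re_le_norm _⟩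
        exact AnalyticAt.comp (g := Complex.reCLM) (Complex.reCLM.analyticAt _) (hψ v hv)
    obtain ⟨g, hg, hne, hle⟩ := key
    obtain ⟨K, A, N₀, hK⟩ := piece_iso h2 γ g _ _ C (hg.mono hsub) fun v₁ hv₁ h =>
      hne (piece_id g φ₀ δ hδ hg v₁ φ₀ hv₁ hc h)
    refine ⟨δ / 2, K, A, max N₀ 1, by linarith, fun N hN S hS => ?_⟩
    have hN1 : (1 : ℝ) ≤ N := by exact_mod_cast le_trans (le_max_right _ _) hN
    have hcard : S.card ≤ K := by
      refine hK N (le_trans (le_max_left _ _) hN) S fun z hz => ?_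
      obtain ⟨a1, a2, a3⟩ := hS z hz
      obtain ⟨b1, b2⟩ := hC _ _ a1 a2 _ a3
      exact ⟨hmem _ a2, b1, (hle _).trans b2⟩
    have h1 : (1 : ℝ) ≤ (N : ℝ) ^ ε := Real.one_le_rpow hN1 hε.le
    have h2 : (S.card : ℝ) ≤ K := by exact_mod_cast hcard
    calc (S.card : ℝ) ≤ K * 1 := by linarith
      _ ≤ K * (N : ℝ) ^ ε := by gcongr

/-- exchange of the two variables. -/
noncomputable def countSw (S : LP) : LP :=
  AddMonoidAlgebra.ofCoeff (S.coeff.equivMapDomain (Equiv.prodComm ℤ ℤ))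

theorem count_sw_coeff (S : LP) (μ : ℤ × ℤ) : (countSw S).coeff μ = S.coeff μ.swap := rfl

theorem count_ev_sw (S : LP) (x y : ℂ) : ev (countSw S) y x = ev S x y := by
  unfold ev
  refine Finset.sum_equiv (Equiv.prodComm ℤ ℤ) (fun μ => ?_) fun μ _ => ?_
  · simp [count_sw_coeff]
  · simp only [count_sw_coeff, Equiv.prodComm_apply, Prod.fst_swap, Prod.snd_swap]; ring

theorem count_d_sw (S : LP) (x y : ℂ) :
    ∑ μ ∈ (countSw S).coeff.support,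
        (μ.1 : ℂ) * (((countSw S).coeff μ : ℂ) * y ^ μ.1 * x ^ μ.2) =
      ∑ μ ∈ S.coeff.support, (μ.2 : ℂ) * ((S.coeff μ : ℂ) * x ^ μ.1 * y ^ μ.2) := by
  refine Finset.sum_equiv (Equiv.prodComm ℤ ℤ) (fun μ => ?_) fun μ _ => ?_
  · simp [count_sw_coeff]
  · simp only [count_sw_coeff, Equiv.prodComm_apply, Prod.fst_swap, Prod.snd_swap]; ring

theorem count_nc_sw (S : LP) (h : NoCoset S) : NoCoset (countSw S) := by
  intro x y hx hy a b hab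
  obtain ⟨t, ht, h'⟩ := h y x hy hx b a hab.symm
  exact ⟨t, ht, by rwa [count_ev_sw]⟩

/-- the local count at any point of the torus. -/
theorem count_loc (h : SPiece) (P : LP) (hP : NoCoset P) (hS : Smooth P) (ε : ℝ) (hε : 0 < ε)
    (p : ℝ × ℝ) : ∃ (δ C : ℝ) (A N₀ : ℕ), 0 < δ ∧ ∀ N : ℕ, N₀ ≤ N → ∀ S : Finset (ℤ × ℤ),
      (∀ z ∈ S, |(z.1 / N : ℝ) - p.1| ≤ δ ∧ |(z.2 / N : ℝ) - p.2| ≤ δ ∧
        ‖ev P (E (z.1 / N)) (E (z.2 / N))‖ ≤ ((N : ℝ) ^ A)⁻¹) →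
      (S.card : ℝ) ≤ C * (N : ℝ) ^ ε := by
  classical
  by_cases h0 : ev P (E p.1) (E p.2) = 0
  · rcases hS _ _ (piece_E_norm p.1) (piece_E_norm p.2) h0 with h1 | h1
    · exact h P p.1 p.2 hP h0 h1 ε hε
    · obtain ⟨δ, C, A, N₀, hδ, hK⟩ := h (countSw P) p.2 p.1 (count_nc_sw P hP)
        (by rwa [count_ev_sw]) (by rwa [count_d_sw]) ε hε
      refine ⟨δ, C, A, N₀, hδ, fun N hN S hS => ?_⟩
      rw [← Finset.card_image_of_injective S Prod.swap_injective]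
      refine hK N hN _ fun z hz => ?_
      obtain ⟨z', hz', rfl⟩ := Finset.mem_image.1 hz
      obtain ⟨a1, a2, a3⟩ := hS z' hz'
      exact ⟨a2, a1, by rw [count_ev_sw]; exact a3⟩
  · have hpos : 0 < ‖ev P (E p.1) (E p.2)‖ := norm_pos_iff.2 h0
    have hev : ∀ᶠ z : ℝ × ℝ in 𝓝 p, ‖ev P (E p.1) (E p.2)‖ / 2 < ‖ev P (E z.1) (E z.2)‖ :=
      (piece_cont P).norm.continuousAt.eventually (lt_mem_nhds (half_lt_self hpos))
    generalize ‖ev P (E p.1) (E p.2)‖ = c at hpos hev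
    obtain ⟨δ, hδ, hb⟩ := Metric.nhds_basis_closedBall.eventually_iff.1 hev
    refine ⟨δ, 0, 1, ⌈2 / c⌉₊, hδ, fun N hN S hS => ?_⟩
    have hSe : S = ∅ := by
      refine Finset.eq_empty_of_forall_notMem fun z hz => ?_
      obtain ⟨a1, a2, a3⟩ := hS z hz
      have hm : ((z.1 / N : ℝ), (z.2 / N : ℝ)) ∈ Metric.closedBall p δ := by
        rw [Metric.mem_closedBall, Prod.dist_eq, Real.dist_eq, Real.dist_eq]
        exact max_le a1 a2
      have k1 := hb hm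
      dsimp only at k1
      have k2 : 2 / c ≤ N := le_trans (Nat.le_ceil _) (by exact_mod_cast hN)
      have k3 : ((N : ℝ) ^ 1)⁻¹ ≤ c / 2 := by
        rw [pow_one, ← inv_div 2 c]
        exact inv_anti₀ (by positivity) k2
      linarith
    simp [hSe]

theorem sCount (h : SPiece) : SCount := by
  classical
  intro P hP hS ε hε
  choose δ C A N₀ hδ hK using count_loc h P hP hS ε hε
  have hcomp : IsCompact (Set.Icc (0 : ℝ) 1 ×ˢ Set.Icc (0 : ℝ) 1) :=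
    isCompact_Icc.prod isCompact_Icc
  obtain ⟨T, -, hT⟩ := hcomp.elim_nhds_subcover (fun p => Metric.closedBall p (δ p))
    fun p _ => Metric.closedBall_mem_nhds p (hδ p)
  refine ⟨∑ p ∈ T, C p, T.sup A, max 1 (T.sup N₀), fun N hN S hS' => ?_⟩
  have hN1 : 1 ≤ N := le_trans (le_max_left _ _) hN
  have hNp : (0 : ℝ) < N := by exact_mod_cast hN1
  have hcov : S ⊆ T.biUnion fun p => S.filter fun z =>
      |(z.1 / N : ℝ) - p.1| ≤ δ p ∧ |(z.2 / N : ℝ) - p.2| ≤ δ p := by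
    intro z hz
    obtain ⟨a1, a2, a3, a4, -⟩ := hS' z hz
    have b1 : (0 : ℝ) ≤ z.1 := by exact_mod_cast a1
    have b2 : (z.1 : ℝ) ≤ N := by exact_mod_cast a2.le
    have b3 : (0 : ℝ) ≤ z.2 := by exact_mod_cast a3
    have b4 : (z.2 : ℝ) ≤ N := by exact_mod_cast a4.le
    have hm : ((z.1 / N : ℝ), (z.2 / N : ℝ)) ∈ Set.Icc (0 : ℝ) 1 ×ˢ Set.Icc (0 : ℝ) 1 :=
      ⟨⟨by positivity, (div_le_one hNp).2 b2⟩, ⟨by positivity, (div_le_one hNp).2 b4⟩⟩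
    obtain ⟨p, hp, hz'⟩ := Set.mem_iUnion₂.1 (hT hm)
    rw [Metric.mem_closedBall, Prod.dist_eq, Real.dist_eq, Real.dist_eq, max_le_iff] at hz'
    exact Finset.mem_biUnion.2 ⟨p, hp, Finset.mem_filter.2 ⟨hz, hz'⟩⟩
  have h1 := (Finset.card_le_card hcov).trans Finset.card_biUnion_le
  have h2 : (S.card : ℝ) ≤ ∑ p ∈ T, (((S.filter fun z =>
      |(z.1 / N : ℝ) - p.1| ≤ δ p ∧ |(z.2 / N : ℝ) - p.2| ≤ δ p).card : ℕ) : ℝ) := by
    exact_mod_cast h1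
  refine h2.trans ?_
  rw [Finset.sum_mul]
  refine Finset.sum_le_sum fun p hp => ?_
  refine hK p N (le_trans (Finset.le_sup (f := N₀) hp) (le_trans (le_max_right _ _) hN)) _
    fun z hz => ?_
  obtain ⟨hz1, hz2, hz3⟩ := Finset.mem_filter.1 hz
  exact ⟨hz2, hz3, (hS' z hz1).2.2.2.2.trans (piece_anti N _ _ hN1 (Finset.le_sup (f := A) hp))⟩

end Pool.Agent.MP_c1891a_nt.H43
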