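import Pool.Agent.MP_c1891a_nt.H91.Spec

/-
Two different one-parameter restrictions have no common zero except roots of unity.
-/

namespace Pool.Agent.MP_c1891a_nt.H91

open Finset Polynomial

theorem deg_aeval_FP {F : Type*} [Field F] (k c : ℤ) {a b : ℕ} (h : b ≤ a) {t : F} (ht : t ≠ 0) :
    aeval t (FP k c a b) = t ^ a * PV k c (t ^ a) (t ^ b) := by
  obtain ⟨d, rfl⟩ := Nat.exists_eq_add_of_le h
  simp only [FP, PV, map_add, map_mul, map_pow, aeval_X, map_one, eq_intCast, map_intCast,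
    Nat.add_sub_cancel_left]
  field_simp
  ring

theorem deg_aeval_zero {F : Type*} [Field F] (k c : ℤ) {a b : ℕ} (h : b < a) :
    aeval (0 : F) (FP k c a b) = c := by
  have h1 : a ≠ 0 := by omega
  have h2 : a - b ≠ 0 := by omega
  simp [FP, h1, h2]

theorem deg_PV_inv {F : Type*} [Field F] (k c : ℤ) (a b : ℕ) (t : F) :
    PV k c (t⁻¹ ^ a) (t⁻¹ ^ b) = PV k c (t ^ a) (t ^ b) := by
  simp only [PV, inv_pow, inv_inv]
  ring

/-- equal first exponents force equal second exponents. -/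
theorem deg_second (k c : ℤ) (hc : c ≠ 0) (a b₁ b₂ : ℕ) (t : ℂ) (ht : t ≠ 0)
    (hu : ∀ n : ℕ, 0 < n → t ^ n ≠ 1) (h1 : PV k c (t ^ a) (t ^ b₁) = 0)
    (h2 : PV k c (t ^ a) (t ^ b₂) = 0) : b₁ = b₂ := by
  wlog hle : b₁ ≤ b₂ generalizing b₁ b₂
  · exact (this b₂ b₁ h2 h1 (by omega)).symm
  obtain ⟨d, rfl⟩ := Nat.exists_eq_add_of_le hle
  by_contra hne
  have hd : 0 < d := by omega
  have hc' : (c : ℂ) ≠ 0 := by exact_mod_cast hc
  have h3 : t ^ b₁ + (t ^ b₁)⁻¹ = t ^ (b₁ + d) + (t ^ (b₁ + d))⁻¹ := by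
    apply mul_left_cancel₀ hc'
    simp only [PV] at h1 h2
    linear_combination h1 - h2
  have h4 : (t ^ d - 1) * (t ^ (2 * b₁ + d) - 1) = 0 := by
    have hb : t ^ b₁ ≠ 0 := pow_ne_zero _ ht
    have hd' : t ^ d ≠ 0 := pow_ne_zero _ ht
    rw [pow_add] at h3
    field_simp at h3
    rw [pow_add, pow_mul']
    linear_combination -h3
  rcases mul_eq_zero.1 h4 with h | h
  · exact hu d hd (sub_eq_zero.1 h)
  · exact hu _ (by omega) (sub_eq_zero.1 h)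

/-! ### The case of a non-unit leading coefficient -/

theorem deg_ultra {L : Type*} [NormedField L] [IsUltrametricDist L] (k c : ℤ)
    (hk : ‖(k : L)‖ = 1) {a b : ℕ} (h : b < a) {τ : L} (hτ : 1 ≤ ‖τ‖)
    (hc : ‖(c : L)‖ < 1) (h0 : PV k c (τ ^ a) (τ ^ b) = 0) :
    1 < ‖τ‖ ∧ ‖(c : L)‖ * ‖τ‖ ^ a = 1 := by
  have hS : ‖(c : L)‖ * ‖τ ^ a + ((τ ^ a)⁻¹ + τ ^ b + (τ ^ b)⁻¹)‖ = 1 := by
    rw [← norm_mul, ← hk, ← norm_neg (k : L)]
    congr 1
    simp only [PV] at h0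
    linear_combination h0
  have hb : 1 ≤ ‖τ‖ ^ b := one_le_pow₀ hτ
  have hR : ‖(τ ^ a)⁻¹ + τ ^ b + (τ ^ b)⁻¹‖ ≤ ‖τ‖ ^ b := by
    refine (IsUltrametricDist.norm_add_le_max _ _).trans (max_le ?_ ?_)
    · refine (IsUltrametricDist.norm_add_le_max _ _).trans (max_le ?_ ?_)
      · rw [norm_inv, norm_pow]
        exact (inv_le_one_of_one_le₀ (one_le_pow₀ hτ)).trans hb
      · rw [norm_pow]
    · rw [norm_inv, norm_pow]
      exact (inv_le_one_of_one_le₀ hb).trans hb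
  have hlt : 1 < ‖τ‖ := by
    rcases hτ.lt_or_eq with h1 | h1
    · exact h1
    · exfalso
      have h2 : ‖τ ^ a + ((τ ^ a)⁻¹ + τ ^ b + (τ ^ b)⁻¹)‖ ≤ 1 := by
        refine (IsUltrametricDist.norm_add_le_max _ _).trans (max_le ?_ ?_)
        · rw [norm_pow, ← h1, one_pow]
        · rw [← h1, one_pow] at hR
          exact hR
      have h3 := mul_le_mul_of_nonneg_left h2 (norm_nonneg (c : L))
      linarith
  refine ⟨hlt, ?_⟩
  have hab : ‖τ‖ ^ b < ‖τ‖ ^ a := pow_lt_pow_right₀ hlt h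
  have hne : ‖τ ^ a‖ ≠ ‖(τ ^ a)⁻¹ + τ ^ b + (τ ^ b)⁻¹‖ := by
    rw [norm_pow]
    exact (hR.trans_lt hab).ne'
  rw [IsUltrametricDist.norm_add_eq_max_of_norm_ne_norm hne, norm_pow,
    max_eq_left (hR.trans hab.le)] at hS
  exact hS

theorem deg_ultra_eq {L : Type*} [NormedField L] [IsUltrametricDist L] (k c : ℤ)
    (hk : ‖(k : L)‖ = 1) (hc : ‖(c : L)‖ < 1) {a₁ b₁ a₂ b₂ : ℕ} (h₁ : b₁ < a₁) (h₂ : b₂ < a₂)
    {τ : L} (hτ : τ ≠ 0) (e₁ : PV k c (τ ^ a₁) (τ ^ b₁) = 0) (e₂ : PV k c (τ ^ a₂) (τ ^ b₂) = 0) :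
    a₁ = a₂ := by
  wlog h : 1 ≤ ‖τ‖ generalizing τ
  · refine this (inv_ne_zero hτ) ((deg_PV_inv k c _ _ τ).trans e₁)
      ((deg_PV_inv k c _ _ τ).trans e₂) ?_
    rw [norm_inv]
    exact (one_le_inv₀ (norm_pos_iff.2 hτ)).2 (not_le.1 h).le
  obtain ⟨hlt, u₁⟩ := deg_ultra k c hk h₁ h hc e₁
  obtain ⟨-, u₂⟩ := deg_ultra k c hk h₂ h hc e₂
  have hc0 : ‖(c : L)‖ ≠ 0 := by
    intro h0
    rw [h0, zero_mul] at u₁
    exact zero_ne_one u₁
  have := mul_left_cancel₀ hc0 (u₁.trans u₂.symm)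
  exact pow_right_injective₀ (by linarith) hlt.ne' this

theorem deg_transfer (L : Type*) [Field L] [CharZero L] [IsAlgClosed L] (t : ℂ)
    (ht : IsIntegral ℚ t) : ∃ τ : L, ∀ G : ℤ[X], aeval t G = 0 → aeval τ G = 0 := by
  obtain ⟨τ, hτ⟩ := IsAlgClosed.exists_aeval_eq_zero L (minpoly ℚ t) (minpoly.degree_pos ht).ne'
  refine ⟨τ, fun G hG => ?_⟩
  have h1 : aeval t (G.map (algebraMap ℤ ℚ)) = 0 := by rw [aeval_map_algebraMap, hG]
  obtain ⟨q, hq⟩ := minpoly.dvd ℚ t h1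
  rw [← aeval_map_algebraMap ℚ, hq, map_mul, hτ, zero_mul]

theorem deg_big (k c : ℤ) (hA : Adm k c) (hc : c ≠ 1) {a₁ b₁ a₂ b₂ : ℕ} (h₁ : b₁ < a₁)
    (h₂ : b₂ < a₂) {t : ℂ} (ht : t ≠ 0) (e₁ : PV k c (t ^ a₁) (t ^ b₁) = 0)
    (e₂ : PV k c (t ^ a₂) (t ^ b₂) = 0) : a₁ = a₂ := by
  obtain ⟨-, hk, hcop⟩ := hA
  have hc0 : 0 < c := by have := abs_nonneg k; omega
  obtain ⟨l, hl, hlc⟩ := Nat.exists_prime_and_dvd (n := c.natAbs) (by omega)
  have : Fact l.Prime := ⟨hl⟩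
  have hlc' : (l : ℤ) ∣ c := Int.natCast_dvd.2 hlc
  have hlk : ¬ (l : ℤ) ∣ k := fun h =>
    (Nat.prime_iff_prime_int.1 hl).not_isUnit (hcop.isUnit_of_dvd' h hlc')
  have hn : ∀ z : ℤ, ‖(z : PadicAlgCl l)‖ = ‖(z : ℚ_[l])‖ := fun z => by
    rw [← PadicAlgCl.norm_extends, map_intCast]
  have f₁ : aeval t (FP k c a₁ b₁) = 0 := by rw [deg_aeval_FP k c h₁.le ht, e₁, mul_zero]
  have f₂ : aeval t (FP k c a₂ b₂) = 0 := by rw [deg_aeval_FP k c h₂.le ht, e₂, mul_zero]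
  have hint : IsIntegral ℚ t := by
    refine IsAlgebraic.isIntegral ⟨(FP k c a₁ b₁).map (algebraMap ℤ ℚ), fun h0 => ?_, ?_⟩
    · have h3 := deg_aeval_zero (F := ℚ) k c h₁
      rw [← aeval_map_algebraMap ℚ, h0, map_zero] at h3
      have : c = 0 := by exact_mod_cast h3.symm
      omega
    · rw [aeval_map_algebraMap, f₁]
  obtain ⟨τ, hτ⟩ := deg_transfer (PadicAlgCl l) t hint
  have hτ0 : τ ≠ 0 := by
    rintro rfl
    have h3 := hτ _ f₁
    rw [deg_aeval_zero k c h₁] at h3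
    have : c = 0 := by exact_mod_cast h3
    omega
  have g₁ := hτ _ f₁
  have g₂ := hτ _ f₂
  rw [deg_aeval_FP k c h₁.le hτ0] at g₁
  rw [deg_aeval_FP k c h₂.le hτ0] at g₂
  refine deg_ultra_eq k c ?_ ?_ h₁ h₂ hτ0
    ((mul_eq_zero.1 g₁).resolve_left (pow_ne_zero _ hτ0))
    ((mul_eq_zero.1 g₂).resolve_left (pow_ne_zero _ hτ0))
  · rw [hn]
    refine le_antisymm (Padic.norm_int_le_one k) (not_lt.1 fun h => hlk ?_)
    exact Padic.norm_intCast_lt_one_iff.1 h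
  · rw [hn]
    exact Padic.norm_intCast_lt_one_iff.2 hlc'

/-! ### The height bound -/

theorem deg_root_aux {k : ℤ} (hk : |k| < 4 * 1) {a b : ℕ} (h : b ≤ a) {τ : ℂ} (hτ : 1 ≤ ‖τ‖)
    (e : PV k 1 (τ ^ a) (τ ^ b) = 0) : ‖τ‖ ^ b * ‖τ ^ (a - b) + 1‖ ≤ 5 := by
  obtain ⟨d, rfl⟩ := Nat.exists_eq_add_of_le h
  rw [Nat.add_sub_cancel_left, ← norm_pow, ← norm_mul]
  have h1 : τ ^ b * (τ ^ d + 1) = -((k : ℂ) + (τ ^ (b + d))⁻¹ + (τ ^ b)⁻¹) := by
    simp only [PV, Int.cast_one, one_mul] at e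
    rw [pow_add] at e ⊢
    linear_combination e
  have h2 : ‖(k : ℂ)‖ ≤ 3 := by
    rw [Complex.norm_intCast]
    have : |k| ≤ 3 := by omega
    exact_mod_cast this
  have h3 : ∀ n : ℕ, ‖(τ ^ n)⁻¹‖ ≤ 1 := fun n => by
    rw [norm_inv, norm_pow]
    exact inv_le_one_of_one_le₀ (one_le_pow₀ hτ)
  rw [h1, norm_neg]
  have h4 := norm_add₃_le (a := (k : ℂ)) (b := (τ ^ (b + d))⁻¹) (c := (τ ^ b)⁻¹)
  have := h3 (b + d)
  have := h3 b
  linarith

theorem deg_root {k : ℤ} (hk : |k| < 4 * 1) {a b : ℕ} (h : b ≤ a) {τ : ℂ}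
    (e : PV k 1 (τ ^ a) (τ ^ b) = 0) :
    max 1 ‖τ‖ ^ a * ‖τ ^ (a - b) + 1‖ ≤ 30 := by
  rcases le_total 1 ‖τ‖ with hτ | hτ
  · have h1 := deg_root_aux hk h hτ e
    rw [max_eq_right hτ]
    have hb : 1 ≤ ‖τ‖ ^ b := one_le_pow₀ hτ
    have h2 : ‖τ ^ (a - b) + 1‖ ≤ 5 := by nlinarith [norm_nonneg (τ ^ (a - b) + 1)]
    have h3 : ‖τ‖ ^ (a - b) ≤ 6 := by
      have h4 := norm_sub_le (τ ^ (a - b) + 1) 1
      rw [add_sub_cancel_right, norm_pow, norm_one] at h4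
      linarith
    have h5 : ‖τ‖ ^ a = ‖τ‖ ^ (a - b) * ‖τ‖ ^ b := by
      rw [← pow_add, Nat.sub_add_cancel h]
    rw [h5, mul_assoc]
    have h6 : 0 ≤ ‖τ‖ ^ b * ‖τ ^ (a - b) + 1‖ := by positivity
    nlinarith
  · rw [max_eq_left hτ, one_pow, one_mul]
    have h1 := norm_add_le (τ ^ (a - b)) 1
    rw [norm_pow, norm_one] at h1
    have := pow_le_one₀ (n := a - b) (norm_nonneg τ) hτ
    linarith

theorem deg_prod_le (a : ℕ) (f : ℂ → ℝ) (hf : ∀ z, 0 ≤ f z) (s : Multiset ℂ)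
    (hs : ∀ z ∈ s, max 1 ‖z‖ ^ a * f z ≤ 30) :
    (s.map fun z => max 1 ‖z‖).prod ^ a * (s.map f).prod ≤ 30 ^ s.card := by
  induction s using Multiset.induction_on with
  | empty => simp
  | cons z s ih =>
    simp only [Multiset.map_cons, Multiset.prod_cons, Multiset.card_cons, mul_pow]
    have h1 := hs z (Multiset.mem_cons_self _ _)
    have h2 := ih fun y hy => hs y (Multiset.mem_cons_of_mem hy)
    have h3 : 0 ≤ (s.map fun z => max 1 ‖z‖).prod ^ a * (s.map f).prod := by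
      refine mul_nonneg (pow_nonneg (Multiset.prod_nonneg ?_) _) (Multiset.prod_nonneg ?_)
      · intro y hy
        obtain ⟨x, -, rfl⟩ := Multiset.mem_map.1 hy
        positivity
      · intro y hy
        obtain ⟨x, -, rfl⟩ := Multiset.mem_map.1 hy
        exact hf x
    calc _ = (max 1 ‖z‖ ^ a * f z) *
          ((s.map fun z => max 1 ‖z‖).prod ^ a * (s.map f).prod) := by ring
      _ ≤ 30 * 30 ^ s.card := mul_le_mul h1 h2 h3 (by norm_num)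
      _ = _ := by ring

theorem deg_height {k : ℤ} (hk : |k| < 4 * 1) {a b : ℕ} (h : b ≤ a) (g : ℤ[X]) (hg : g.Monic)
    (hr : ∀ z : ℂ, aeval z g = 0 → z ^ (a - b) + 1 ≠ 0 ∧ PV k 1 (z ^ a) (z ^ b) = 0) :
    a * (g.map (Int.castRingHom ℂ)).logMahlerMeasure ≤ 4 * g.natDegree := by
  set p := g.map (Int.castRingHom ℂ) with hp
  have hpm : p.Monic := hg.map _
  have hdeg : p.natDegree = g.natDegree := hg.natDegree_map _
  have hroot : ∀ z ∈ p.roots, aeval z g = 0 := fun z hz => by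
    have h1 := (mem_roots hpm.ne_zero).1 hz
    rw [hp, IsRoot.def, eval_map] at h1
    exact h1
  have hsp : p.Splits := IsAlgClosed.splits p
  set G : ℤ[X] := X ^ (a - b) + 1 with hG
  have hev : ∀ z : ℂ, (G.map (Int.castRingHom ℂ)).eval z = z ^ (a - b) + 1 := fun z => by
    simp [hG]
  have hres := resultant_eq_prod_eval p (G.map (Int.castRingHom ℂ)) _ le_rfl hsp
  rw [hpm.leadingCoeff, one_pow, one_mul, hp, resultant_map_map, ← hp] at hres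
  have hne : (p.roots.map (G.map (Int.castRingHom ℂ)).eval).prod ≠ 0 := by
    refine Multiset.prod_ne_zero fun h0 => ?_
    obtain ⟨z, hz, hz0⟩ := Multiset.mem_map.1 h0
    rw [hev] at hz0
    exact (hr z (hroot z hz)).1 hz0
  have hone : 1 ≤ ‖(p.roots.map (G.map (Int.castRingHom ℂ)).eval).prod‖ := by
    rw [← hres] at hne ⊢
    rw [eq_intCast] at hne ⊢
    rw [Complex.norm_intCast]
    exact_mod_cast Int.one_le_abs (by exact_mod_cast hne)
  have hn : ‖(p.roots.map (G.map (Int.castRingHom ℂ)).eval).prod‖ =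
      (p.roots.map fun z => ‖z ^ (a - b) + 1‖).prod := by
    have := map_multiset_prod (normHom (α := ℂ)) (p.roots.map (G.map (Int.castRingHom ℂ)).eval)
    rw [Multiset.map_map] at this
    refine this.trans ?_
    congr 1
    exact Multiset.map_congr rfl fun z _ => by simp [hev]
  have hle := deg_prod_le a (fun z => ‖z ^ (a - b) + 1‖) (fun z => norm_nonneg _) p.roots
    fun z hz => deg_root hk h (hr z (hroot z hz)).2
  have hM : p.mahlerMeasure = (p.roots.map fun z => max 1 ‖z‖).prod := by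
    rw [mahlerMeasure_eq_leadingCoeff_mul_prod_roots, hpm.leadingCoeff, norm_one, one_mul]
  have hMpos : 0 < p.mahlerMeasure := mahlerMeasure_pos_of_ne_zero hpm.ne_zero
  rw [← hM, ← hn, ← hsp.natDegree_eq_card_roots, hdeg] at hle
  have h1 : p.mahlerMeasure ^ a ≤ 30 ^ g.natDegree := by
    have : 0 < p.mahlerMeasure ^ a := pow_pos hMpos _
    nlinarith
  have h2 := Real.log_le_log (pow_pos hMpos _) h1
  rw [Real.log_pow, Real.log_pow] at h2
  rw [logMahlerMeasure_eq_log_MahlerMeasure]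
  have h3 : Real.log 30 ≤ 4 := by
    rw [Real.log_le_iff_le_exp (by norm_num)]
    have h4 := Real.exp_one_gt_d9
    have h5 : Real.exp 4 = Real.exp 1 ^ 4 := by rw [← Real.exp_nat_mul]; norm_num
    rw [h5]
    calc (30 : ℝ) ≤ 2.7 ^ 4 := by norm_num
      _ ≤ Real.exp 1 ^ 4 := pow_le_pow_left₀ (by norm_num) (by linarith) _
  have h6 : (0 : ℝ) ≤ g.natDegree := Nat.cast_nonneg _
  nlinarith

/-! ### Simultaneous approximation -/

theorem deg_dirichlet (A N : ℕ) (hA : 0 < A) (hN : 0 < N) (e : Fin 3 → ℕ) :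
    ∃ q : ℕ, 0 < q ∧ q ≤ N ^ 3 ∧ ∃ v d : Fin 3 → ℤ,
      ∀ j, (q : ℤ) * e j = A * v j + d j ∧ N * |d j| < A := by
  have hlt : ∀ x : ℕ, N * (x % A) / A < N := fun x => by
    rw [Nat.div_lt_iff_lt_mul hA]
    exact Nat.mul_lt_mul_of_pos_left (Nat.mod_lt _ hA) hN
  let f : Fin (N ^ 3 + 1) → Fin 3 → Fin N := fun q j => ⟨N * ((q * e j) % A) / A, hlt _⟩
  have key : ∀ x y : Fin (N ^ 3 + 1), x < y → f x = f y → ∃ q : ℕ, 0 < q ∧ q ≤ N ^ 3 ∧
      ∃ v d : Fin 3 → ℤ, ∀ j, (q : ℤ) * e j = A * v j + d j ∧ N * |d j| < A := by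
    intro x y hxy hf
    have hxy' : (x : ℕ) < y := hxy
    refine ⟨y - x, by omega, by have := y.2; omega,
      fun j => ((y * e j / A : ℕ) : ℤ) - ((x * e j / A : ℕ) : ℤ),
      fun j => ((y * e j % A : ℕ) : ℤ) - ((x * e j % A : ℕ) : ℤ), fun j => ⟨?_, ?_⟩⟩
    · have h1 : ((y * e j : ℕ) : ℤ) = A * ((y * e j / A : ℕ) : ℤ) + ((y * e j % A : ℕ) : ℤ) := by
        exact_mod_cast (Nat.div_add_mod _ _).symm
      have h2 : ((x * e j : ℕ) : ℤ) = A * ((x * e j / A : ℕ) : ℤ) + ((x * e j % A : ℕ) : ℤ) := by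
        exact_mod_cast (Nat.div_add_mod _ _).symm
      rw [Nat.cast_sub hxy'.le]
      rw [Nat.cast_mul] at h1 h2
      linear_combination h1 - h2
    · have h1 : N * ((x * e j) % A) / A = N * ((y * e j) % A) / A := congrArg Fin.val (congrFun hf j)
      beta_reduce
      generalize (x * e j) % A = r at h1 ⊢
      generalize (y * e j) % A = s at h1 ⊢
      have h2 := Nat.div_add_mod (N * r) A
      have h3 := Nat.div_add_mod (N * s) A
      have h4 := Nat.mod_lt (N * r) hA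
      have h5 := Nat.mod_lt (N * s) hA
      rw [h1] at h2
      have h6 : (N : ℤ) * |(s : ℤ) - r| = |((N * s : ℕ) : ℤ) - ((N * r : ℕ) : ℤ)| := by
        push_cast
        rw [← mul_sub, abs_mul, Nat.abs_cast]
      rw [h6, abs_lt]
      omega
  obtain ⟨x, y, hxy, hf⟩ := Fintype.exists_ne_map_eq_of_card_lt f (by simp)
  rcases lt_or_gt_of_ne hxy with h | h
  · exact key x y h hf
  · exact key y x h hf.symm

theorem deg_plane (N : ℕ) (hN : 2 ≤ N) (A : ℕ) (e : Fin 3 → ℕ) (he : ∀ j, e j ≤ A)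
    (hg : Nat.gcd (Nat.gcd A (e 0)) (Nat.gcd (e 1) (e 2)) = 1) (h1 : N ^ 7 ≤ A)
    (h2 : A < (N + 1) ^ 7) : ∃ (v w : Fin 4 → ℤ) (m : ℤ) (V W : ℕ),
      (∃ i j, v i * w j ≠ v j * w i) ∧ (∀ i, |v i| ≤ V) ∧ (∀ i, |w i| ≤ W) ∧
      V * W ≤ 129 * N ^ 6 ∧ ∀ i, m * v i + w i = (Fin.cons A e : Fin 4 → ℕ) i := by
  have hN0 : 0 < N := by omega
  have hA : 0 < A := lt_of_lt_of_le (pow_pos hN0 _) h1
  obtain ⟨q, hq0, hq, v, d, hvd⟩ := deg_dirichlet A N hA hN0 e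
  have hAz : (0 : ℤ) < A := by exact_mod_cast hA
  have hqz : (0 : ℤ) < q := by exact_mod_cast hq0
  have hNz : (2 : ℤ) ≤ N := by exact_mod_cast hN
  have hd : ∀ j, |d j| < A := fun j => by nlinarith [(hvd j).2, abs_nonneg (d j)]
  have hv : ∀ j, 0 ≤ v j ∧ v j ≤ q := fun j => by
    have a1 := (hvd j).1
    have a2 := abs_lt.1 (hd j)
    have a3 : (e j : ℤ) ≤ A := by exact_mod_cast he j
    have a4 : (0 : ℤ) ≤ e j := Int.natCast_nonneg _
    constructor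
    · by_contra hc
      have : v j ≤ -1 := by omega
      nlinarith
    · by_contra hc
      have : q + 1 ≤ v j := by omega
      nlinarith
  have hd6 : ∀ j, |d j| ≤ 128 * (N : ℤ) ^ 6 := fun j => by
    have a1 := (hvd j).2
    have a2 : (A : ℤ) < (N + 1) ^ 7 := by exact_mod_cast h2
    have a3 : ((N : ℤ) + 1) ^ 7 ≤ (2 * N) ^ 7 := pow_le_pow_left₀ (by omega) (by omega) _
    by_contra hc
    have a4 : (N : ℤ) * (128 * (N : ℤ) ^ 6) ≤ N * |d j| :=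
      mul_le_mul_of_nonneg_left (not_le.1 hc).le (by omega)
    nlinarith
  have hq6 : (q : ℤ) * q ≤ (N : ℤ) ^ 6 := by
    have a1 : (q : ℤ) ≤ (N : ℤ) ^ 3 := by exact_mod_cast hq
    nlinarith
  set m : ℤ := A / q with hm
  have hw0 : 0 ≤ (A : ℤ) - m * q ∧ (A : ℤ) - m * q < q := by
    have a1 := Int.emod_add_mul_ediv (A : ℤ) q
    have a2 := Int.emod_nonneg (A : ℤ) hqz.ne'
    have a3 := Int.emod_lt_of_pos (A : ℤ) hqz
    constructor <;> nlinarith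
  have hW : ∀ x : ℤ, q * |x| ≤ 129 * (N : ℤ) ^ 6 → |x| ≤ ((129 * N ^ 6 / q : ℕ) : ℤ) := by
    intro x hx
    push_cast
    rw [Int.le_ediv_iff_mul_le hqz]
    linarith
  have hN6 : (0 : ℤ) ≤ (N : ℤ) ^ 6 := by positivity
  refine ⟨Fin.cons (q : ℤ) v, Fin.cons ((A : ℤ) - m * q) fun j => e j - m * v j, m, q,
    129 * N ^ 6 / q, ?_, ?_, ?_, Nat.mul_div_le _ _, ?_⟩
  · by_contra hc
    have hc' : ∀ j, d j = 0 := fun j => by
      by_contra hj
      refine hc ⟨0, j.succ, fun h => hj ?_⟩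
      simp only [Fin.cons_zero, Fin.cons_succ] at h
      linear_combination h - (hvd j).1
    have hdv : ∀ j, A ∣ q * e j := fun j => by
      have a1 := (hvd j).1
      rw [hc' j, add_zero] at a1
      exact Int.natCast_dvd_natCast.1 ⟨v j, by push_cast; exact a1⟩
    have a2 : A ∣ q * Nat.gcd (Nat.gcd A (e 0)) (Nat.gcd (e 1) (e 2)) := by
      rw [← Nat.gcd_mul_left, ← Nat.gcd_mul_left, ← Nat.gcd_mul_left]
      exact Nat.dvd_gcd (Nat.dvd_gcd (dvd_mul_left _ _) (hdv 0)) (Nat.dvd_gcd (hdv 1) (hdv 2))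
    rw [hg, mul_one] at a2
    have a3 := Nat.le_of_dvd hq0 a2
    have a4 : N ^ 3 < N ^ 7 := Nat.pow_lt_pow_right (by omega) (by norm_num)
    omega
  · refine Fin.cases ?_ fun j => ?_
    · simp
    · simp only [Fin.cons_succ]
      rw [abs_of_nonneg (hv j).1]
      exact (hv j).2
  · refine Fin.cases ?_ fun j => ?_
    · simp only [Fin.cons_zero]
      apply hW
      rw [abs_of_nonneg hw0.1]
      nlinarith [hw0.2]
    · simp only [Fin.cons_succ]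
      apply hW
      have a1 : (q : ℤ) * (e j - m * v j) = d j + v j * (A - m * q) := by
        linear_combination (hvd j).1
      have a2 : (q : ℤ) * |e j - m * v j| = |d j + v j * (A - m * q)| := by
        rw [← a1, abs_mul, abs_of_pos hqz]
      have a3 : |v j * (A - m * q)| ≤ q * q := by
        rw [abs_of_nonneg (mul_nonneg (hv j).1 hw0.1)]
        exact mul_le_mul (hv j).2 hw0.2.le hw0.1 hqz.le
      have a4 := abs_add_le (d j) (v j * (A - m * q))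
      have a5 := hd6 j
      linarith
  · refine Fin.cases ?_ fun j => ?_
    · simp
    · simp

/-! ### The monic case -/

theorem deg_monic (k : ℤ) {a b : ℕ} (h : b < a) : (FP k 1 a b).Monic := by
  have h1 : FP k 1 a b = X ^ (2 * a) + (C k * X ^ a + 1 + X ^ (a + b) + X ^ (a - b)) := by
    simp only [FP, map_one, one_mul]
    ring
  rw [h1]
  refine monic_X_pow_add ?_
  have h2 : ∀ n : ℕ, n < 2 * a → (X ^ n : ℤ[X]).degree < (2 * a : ℕ) := fun n hn => by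
    rw [degree_X_pow]
    exact_mod_cast hn
  refine (degree_add_le _ _).trans_lt (max_lt ?_ (h2 _ (by omega)))
  refine (degree_add_le _ _).trans_lt (max_lt ?_ (h2 _ (by omega)))
  refine (degree_add_le _ _).trans_lt (max_lt ?_ ?_)
  · refine (degree_C_mul_X_pow_le _ _).trans_lt ?_
    exact_mod_cast (by omega : a < 2 * a)
  · simpa using h2 0 (by omega)

theorem deg_one (hD : SDob) (hE : SElim) (k : ℤ) (hA : Adm k 1) : ∃ A₀ : ℕ,
    ∀ a₁ b₁ a₂ b₂ : ℕ, b₁ < a₁ → b₂ < a₂ → a₂ ≤ a₁ →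
    Nat.gcd (Nat.gcd a₁ b₁) (Nat.gcd a₂ b₂) = 1 → A₀ ≤ a₁ →
    ∀ t : ℂ, t ≠ 0 → (∀ n : ℕ, 0 < n → t ^ n ≠ 1) →
      PV k 1 (t ^ a₁) (t ^ b₁) = 0 → PV k 1 (t ^ a₂) (t ^ b₂) = 0 → a₁ = a₂ := by
  obtain ⟨c₀, hc₀, hD⟩ := hD
  obtain ⟨N₀, hN₀⟩ := exists_nat_gt (4128 ^ 7 * 1032 / c₀ ^ 7)
  refine ⟨(N₀ + 2) ^ 7, fun a₁ b₁ a₂ b₂ h₁ h₂ h₂₁ hg hA₀ t ht hu e₁ e₂ => ?_⟩
  obtain ⟨N, hN1, hN2⟩ : ∃ N : ℕ, N ^ 7 ≤ a₁ ∧ a₁ < (N + 1) ^ 7 :=
    ⟨Nat.nthRoot 7 a₁, Nat.pow_nthRoot_le (Or.inl (by norm_num)),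
      Nat.lt_pow_nthRoot_add_one (by norm_num) _⟩
  have hN : N₀ + 2 ≤ N := by
    have := lt_of_pow_lt_pow_left₀ 7 (Nat.zero_le _) (hA₀.trans_lt hN2)
    omega
  obtain ⟨v, w, m, V, W, hmin, hV, hW, hVW, hvw⟩ := deg_plane N (by omega) a₁ ![b₁, a₂, b₂]
    (fun j => by fin_cases j <;> simp <;> omega) (by simpa using hg) hN1 hN2
  have r0 : m * v 0 + w 0 = a₁ := hvw 0
  have r1 : m * v 1 + w 1 = b₁ := hvw 1
  have r2 : m * v 2 + w 2 = a₂ := hvw 2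
  have r3 : m * v 3 + w 3 = b₂ := hvw 3
  by_cases hS : SymRows v w
  · obtain ⟨ε, ε', hε, hε', h | h⟩ := hS
    · obtain ⟨s1, s2, -, -⟩ := h
      have : (a₂ : ℤ) = ε * a₁ := by rw [← r0, ← r2, s1, s2]; ring
      rcases hε with rfl | rfl <;> omega
    · obtain ⟨-, -, s3, s4⟩ := h
      have : (b₂ : ℤ) = ε' * a₁ := by rw [← r0, ← r3, s3, s4]; ring
      rcases hε' with rfl | rfl <;> omega
  exfalso
  have f₁ : aeval t (FP k 1 a₁ b₁) = 0 := by rw [deg_aeval_FP k 1 h₁.le ht, e₁, mul_zero]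
  have f₂ : aeval t (FP k 1 a₂ b₂) = 0 := by rw [deg_aeval_FP k 1 h₂.le ht, e₂, mul_zero]
  have hint : IsIntegral ℤ t := ⟨_, deg_monic k h₁, f₁⟩
  set g := minpoly ℤ t with hgdef
  have hgm : g.Monic := minpoly.monic hint
  have htr : ∀ z : ℂ, aeval z g = 0 → ∀ G : ℤ[X], aeval t G = 0 → aeval z G = 0 := by
    intro z hz G hG
    obtain ⟨q, rfl⟩ := minpoly.isIntegrallyClosed_dvd hint hG
    rw [map_mul, hz, zero_mul]
  have hz0 : ∀ z : ℂ, aeval z g = 0 → z ≠ 0 := by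
    rintro z hz rfl
    have := htr 0 hz _ f₁
    rw [deg_aeval_zero k 1 h₁] at this
    simp at this
  have hP : ∀ z : ℂ, aeval z g = 0 →
      PV k 1 (z ^ a₁) (z ^ b₁) = 0 ∧ PV k 1 (z ^ a₂) (z ^ b₂) = 0 := fun z hz => by
    have g₁ := htr z hz _ f₁
    have g₂ := htr z hz _ f₂
    rw [deg_aeval_FP k 1 h₁.le (hz0 z hz)] at g₁
    rw [deg_aeval_FP k 1 h₂.le (hz0 z hz)] at g₂
    exact ⟨(mul_eq_zero.1 g₁).resolve_left (pow_ne_zero _ (hz0 z hz)),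
      (mul_eq_zero.1 g₂).resolve_left (pow_ne_zero _ (hz0 z hz))⟩
  have hirr : Irreducible g := minpoly.irreducible hint
  have hq : g.map (algebraMap ℤ ℚ) = minpoly ℚ t :=
    (minpoly.isIntegrallyClosed_eq_field_fractions' ℚ hint).symm
  have hintq : IsIntegral ℚ t := hint.tower_top
  have hnu : ∀ z : ℂ, aeval z g = 0 → z ^ (a₁ - b₁) + 1 ≠ 0 := by
    intro z hz h0
    have a1 : aeval z (minpoly ℚ t) = 0 := by rw [← hq, aeval_map_algebraMap, hz]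
    have a2 : minpoly ℚ t = minpoly ℚ z :=
      minpoly.eq_of_irreducible_of_monic (minpoly.irreducible hintq) a1 (minpoly.monic hintq)
    have a3 : aeval z (X ^ (a₁ - b₁) + 1 : ℚ[X]) = 0 := by simpa using h0
    obtain ⟨q, hq'⟩ := minpoly.dvd ℚ z a3
    have a4 : aeval t (X ^ (a₁ - b₁) + 1 : ℚ[X]) = 0 := by
      rw [hq', ← a2, map_mul, minpoly.aeval, zero_mul]
    have a5 : t ^ (a₁ - b₁) = -1 := by
      simp only [map_add, map_pow, aeval_X, map_one] at a4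
      linear_combination a4
    refine hu ((a₁ - b₁) * 2) (by omega) ?_
    rw [pow_mul, a5]
    norm_num
  have hht := deg_height hA.2.1 h₁.le g hgm fun z hz => ⟨hnu z hz, (hP z hz).1⟩
  have hdob := hD g hgm hirr t (minpoly.aeval ℤ t) ht hu
  have hcard : ((minpoly ℚ t).rootSet ℂ).toFinset.card = g.natDegree := by
    rw [Set.toFinset_card, card_rootSet_eq_natDegree (minpoly.irreducible hintq).separable
      (IsAlgClosed.splits _), ← hq, hgm.natDegree_map]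
  have hel := hE k 1 hA v w hmin hS V W hV hW
    ((((minpoly ℚ t).rootSet ℂ).toFinset).map
      ⟨fun z => (z ^ m, z), fun x y h => congrArg Prod.snd h⟩) (by
    intro q hq'
    obtain ⟨z, hz, rfl⟩ := Finset.mem_map.1 hq'
    have hz' : aeval z g = 0 := by
      have := (mem_rootSet.1 (Set.mem_toFinset.1 hz)).2
      rwa [← hq, aeval_map_algebraMap] at this
    have hne := hz0 z hz'
    have hp : ∀ i, (z ^ m) ^ v i * z ^ w i = z ^ (m * v i + w i) := fun i => by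
      rw [← zpow_mul, zpow_add₀ hne]
    refine ⟨zpow_ne_zero _ hne, hne, ?_, ?_⟩
    · simp only [Function.Embedding.coeFn_mk, hp, r0, r1, zpow_natCast]
      exact (hP z hz').1
    · simp only [Function.Embedding.coeFn_mk, hp, r2, r3, zpow_natCast]
      exact (hP z hz').2)
  rw [Finset.card_map, hcard] at hel
  have hD6 : (g.natDegree : ℝ) ≤ 1032 * (N : ℝ) ^ 6 := by
    have : g.natDegree ≤ 1032 * N ^ 6 := by
      rw [mul_assoc] at hel
      omega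
    exact_mod_cast this
  set y : ℝ := (g.natDegree : ℝ) ^ (1 / 7 : ℝ) with hy
  have hy0 : 0 ≤ y := Real.rpow_nonneg (Nat.cast_nonneg _) _
  have hy7 : y ^ 7 = g.natDegree := by
    rw [hy, ← Real.rpow_natCast, ← Real.rpow_mul (Nat.cast_nonneg _)]
    norm_num
  have hNpos : (0 : ℝ) < N := by exact_mod_cast (by omega : 0 < N)
  have ha : (N : ℝ) ^ 7 ≤ a₁ := by exact_mod_cast hN1
  have b1 : c₀ * (N : ℝ) ^ 7 ≤ y * (4 * (1032 * (N : ℝ) ^ 6)) :=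
    calc c₀ * (N : ℝ) ^ 7 ≤ c₀ * a₁ := mul_le_mul_of_nonneg_left ha hc₀.le
      _ ≤ y * (g.map (Int.castRingHom ℂ)).logMahlerMeasure * a₁ :=
        mul_le_mul_of_nonneg_right hdob (Nat.cast_nonneg _)
      _ = y * (a₁ * (g.map (Int.castRingHom ℂ)).logMahlerMeasure) := by ring
      _ ≤ y * (4 * (1032 * (N : ℝ) ^ 6)) := mul_le_mul_of_nonneg_left (by linarith) hy0
  have b2 : c₀ * N ≤ 4128 * y := by
    have h6 : (0 : ℝ) < (N : ℝ) ^ 6 := pow_pos hNpos _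
    refine le_of_mul_le_mul_right ?_ h6
    calc c₀ * N * (N : ℝ) ^ 6 = c₀ * (N : ℝ) ^ 7 := by ring
      _ ≤ _ := b1
      _ = _ := by ring
  have b3 : (c₀ * N) ^ 7 ≤ (4128 * y) ^ 7 := pow_le_pow_left₀ (by positivity) b2 7
  rw [mul_pow, mul_pow, hy7] at b3
  have b4 : c₀ ^ 7 * N ≤ 4128 ^ 7 * 1032 := by
    have h6 : (0 : ℝ) < (N : ℝ) ^ 6 := pow_pos hNpos _
    refine le_of_mul_le_mul_right ?_ h6
    calc c₀ ^ 7 * N * (N : ℝ) ^ 6 = c₀ ^ 7 * (N : ℝ) ^ 7 := by ring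
      _ ≤ _ := b3
      _ ≤ 4128 ^ 7 * (1032 * (N : ℝ) ^ 6) := mul_le_mul_of_nonneg_left hD6 (by norm_num)
      _ = _ := by ring
  rw [div_lt_iff₀ (pow_pos hc₀ 7)] at hN₀
  have b5 : (N₀ : ℝ) ≤ N := by exact_mod_cast (by omega : N₀ ≤ N)
  have b6 := mul_le_mul_of_nonneg_left b5 (pow_pos hc₀ 7).le
  linarith

theorem deg (hD : SDob) (hE : SElim) : SDeg := by
  intro k c hA
  have hc0 : c ≠ 0 := by
    have := abs_nonneg k
    have := hA.2.1
    omega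
  by_cases hc : c = 1
  · subst hc
    obtain ⟨A₀, h⟩ := deg_one hD hE k hA
    refine ⟨A₀, fun a₁ b₁ a₂ b₂ h₁ h₂ hg hA₀ t ht hu e₁ e₂ => ?_⟩
    have ha : a₁ = a₂ := by
      rcases le_total a₂ a₁ with hle | hle
      · exact h a₁ b₁ a₂ b₂ h₁ h₂ hle hg (by omega) t ht hu e₁ e₂
      · exact (h a₂ b₂ a₁ b₁ h₂ h₁ hle (by rwa [Nat.gcd_comm]) (by omega) t ht hu e₂ e₁).symm
    subst ha
    exact ⟨rfl, deg_second k 1 hc0 _ _ _ t ht hu e₁ e₂⟩
  · refine ⟨0, fun a₁ b₁ a₂ b₂ h₁ h₂ _ _ t ht hu e₁ e₂ => ?_⟩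
    have ha := deg_big k c hA hc h₁ h₂ ht e₁ e₂
    subst ha
    exact ⟨rfl, deg_second k c hc0 _ _ _ t ht hu e₁ e₂⟩

end Pool.Agent.MP_c1891a_nt.H91
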